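import Mathlib

set_option autoImplicit false

namespace Pool.Agent.Results.MP_780082_co.Spiral

open Finset

/-! ### The spiral -/

/-- The number of edges of `E` at the vertex `v`. An edge is a pair (earlier vertex, later
vertex). -/
def deg (E : Finset (ℕ × ℕ)) (v : ℕ) : ℕ := (E.filter fun e => e.1 = v ∨ e.2 = v).card

/-- The first vertex that does not have `k` neighbours yet. -/
noncomputable def pivot (k : ℕ) (E : Finset (ℕ × ℕ)) : ℕ := sInf {v | deg E v < k}

/-- Add the vertex `m` to the spiral `E` on the vertices `0, …, m - 1`: join `m` to the vertex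
`m - 1` added just before and to the first vertex that does not have `k` neighbours yet; if this
gives that vertex its `k`-th neighbour, join `m` also to the next vertex that does not have `k`
neighbours yet. -/
noncomputable def attach (k m : ℕ) (E : Finset (ℕ × ℕ)) : Finset (ℕ × ℕ) :=
  insert (pivot k (insert (pivot k E, m) (insert (m - 1, m) E)), m)
    (insert (pivot k E, m) (insert (m - 1, m) E))

/-- The edges of the spiral with `n` vertices `0, …, n - 1` in which every vertex finally gets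
`k` neighbours: Bowen's spiral in the order-`k` triangular tiling. -/
noncomputable def spiral (k : ℕ) : ℕ → Finset (ℕ × ℕ)
  | 0 => ∅
  | 1 => ∅
  | (n + 2) => attach k (n + 1) (spiral k (n + 1))

/-- The upper bound `U` of the problem, as a function of the angle `α` of the equilateral
triangle. -/
noncomputable def U (α : ℝ) (n : ℕ) : ℝ :=
  Real.pi / α * n - √((Real.pi / α - 1) * (Real.pi / α - 3) * (n : ℝ) ^ 2 +
    6 * (Real.pi / α - 1) * n - 2 * Real.pi / α + 3)

/-! ### The quadratic -/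

/-- the symmetric quadratic -/
def f (k i n : ℤ) : ℤ := n ^ 2 + i ^ 2 - (k - 4) * i * n - 6 * n - 6 * i + k + 6

theorem f_comm (k i n : ℤ) : f k i n = f k n i := by unfold f; ring

theorem f_reflect (k j i : ℤ) : f k j ((k - 4) * j + 6 - i) = f k j i := by unfold f; ring

theorem f_zero (k n : ℤ) (hk : 7 ≤ k) : 0 < f k 0 n := by
  unfold f; nlinarith [sq_nonneg (n - 3)]

theorem f_one (k n : ℤ) : f k 1 n = (n - 1) * (n - (k + 1)) := by unfold f; ring

theorem f_mono (k j a m : ℤ) (ha : f k j a < f k j (a + 1)) (hm : a + 1 ≤ m) :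
    f k j (a + 1) ≤ f k j m := by
  unfold f at *
  nlinarith [mul_nonneg (sub_nonneg.2 hm) (sub_nonneg.2 hm)]

theorem f_diag (k n : ℤ) (hk : 7 ≤ k) (hn : 2 ≤ n) : f k n n < 0 := by
  unfold f; nlinarith [mul_nonneg (sub_nonneg.2 hk) (sub_nonneg.2 hn)]

theorem ex (k : ℕ) (hk : 7 ≤ k) (n : ℕ) (hn : 1 ≤ n) : ∃ j : ℕ, f k ((j : ℤ) + 1) n < 0 := by
  rcases Nat.lt_or_ge n 2 with h | h
  · obtain rfl : n = 1 := by omega
    refine ⟨1, ?_⟩
    rw [f_comm]
    push_cast
    rw [f_one]
    have : (7 : ℤ) ≤ k := by exact_mod_cast hk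
    nlinarith
  · refine ⟨n - 1, ?_⟩
    have e : ((n - 1 : ℕ) : ℤ) + 1 = n := by push_cast [Nat.cast_sub (show 1 ≤ n by omega)]; ring
    rw [e]
    exact f_diag k n (by exact_mod_cast hk) (by exact_mod_cast h)

open Classical in
/-- the expected number of closed vertices -/
noncomputable def q (k n : ℕ) : ℕ :=
  if h : ∃ j : ℕ, f k ((j : ℤ) + 1) n < 0 then Nat.find h else 0

theorem q_neg (k : ℕ) (hk : 7 ≤ k) (n : ℕ) (hn : 1 ≤ n) : f k ((q k n : ℤ) + 1) n < 0 := by
  classical
  have h := ex k hk n hn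
  unfold q
  rw [dif_pos h]
  exact Nat.find_spec h

theorem q_nonneg (k : ℕ) (hk : 7 ≤ k) (n : ℕ) (hn : 1 ≤ n) (j : ℕ) (hj : j ≤ q k n) :
    0 ≤ f k j n := by
  classical
  rcases Nat.eq_zero_or_pos j with h0 | h0
  · subst h0
    exact (f_zero k n (by exact_mod_cast hk)).le
  · have h := ex k hk n hn
    unfold q at hj
    rw [dif_pos h] at hj
    have := Nat.find_min h (m := j - 1) (by omega)
    rw [not_lt] at this
    have e : ((j - 1 : ℕ) : ℤ) + 1 = j := by push_cast [Nat.cast_sub h0]; ring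
    rwa [e] at this

theorem q_le (k : ℕ) (hk : 7 ≤ k) (n : ℕ) (hn : 1 ≤ n) (j : ℕ) (hj : f k ((j : ℤ) + 1) n < 0) :
    q k n ≤ j := by
  by_contra hlt
  have := q_nonneg k hk n hn (j + 1) (by omega)
  push_cast at this
  omega

theorem q_eq (k : ℕ) (hk : 7 ≤ k) (n : ℕ) (hn : 1 ≤ n) (j : ℕ) (hj : f k ((j : ℤ) + 1) n < 0)
    (hj' : ∀ m : ℕ, m ≤ j → 0 ≤ f k m n) : q k n = j := by
  apply le_antisymm (q_le k hk n hn j hj)
  by_contra hlt
  rw [not_le] at hlt
  have h1 := q_neg k hk n hn
  have h2 := hj' (q k n + 1) (by omega)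
  push_cast at h2
  omega

theorem q_one (k : ℕ) (hk : 7 ≤ k) : q k 1 = 1 := by
  apply q_eq k hk 1 le_rfl
  · rw [f_comm]; push_cast; rw [f_one]
    have : (7 : ℤ) ≤ k := by exact_mod_cast hk
    nlinarith
  · intro m hm
    rcases Nat.eq_zero_or_pos m with h0 | h0
    · subst h0; exact (f_zero k _ (by exact_mod_cast hk)).le
    · obtain rfl : m = 1 := by omega
      push_cast; rw [f_one]; simp

theorem q_lt (k : ℕ) (hk : 7 ≤ k) (n : ℕ) (hn : 2 ≤ n) : q k n < n := by
  have := q_le k hk n (by omega) (n - 1) (by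
    have e : ((n - 1 : ℕ) : ℤ) + 1 = n := by push_cast [Nat.cast_sub (show 1 ≤ n by omega)]; ring
    rw [e]
    exact f_diag k n (by exact_mod_cast hk) (by exact_mod_cast hn))
  omega

theorem q_two (k : ℕ) (hk : 7 ≤ k) : q k 2 = 0 := by
  have := q_le k hk 2 (by norm_num) 0 (by
    push_cast; rw [f_one]
    have : (7 : ℤ) ≤ k := by exact_mod_cast hk
    nlinarith)
  omega

/-- the values `f (m, n + 1)` for closed `m` -/
theorem keep (k : ℕ) (hk : 7 ≤ k) (n : ℕ) (hn : 2 ≤ n) (m : ℕ) (hm : m ≤ q k n) :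
    0 ≤ f k m ((n : ℤ) + 1) := by
  have hk' : (7 : ℤ) ≤ k := by exact_mod_cast hk
  have hn' : (2 : ℤ) ≤ n := by exact_mod_cast hn
  rcases Nat.eq_zero_or_pos m with h0 | h0
  · subst h0; exact (f_zero k _ hk').le
  have h1 : 0 ≤ f k m n := q_nonneg k hk n (by omega) m hm
  have h2 : 0 ≤ f k 1 n := by
    have := q_nonneg k hk n (by omega) 1 (by omega)
    push_cast at this; exact this
  rw [f_one] at h2
  have h3 : (k : ℤ) + 1 ≤ n := by
    by_contra hlt
    rw [not_le] at hlt
    nlinarith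
  have h4 : m < n := lt_of_le_of_lt hm (q_lt k hk n hn)
  have h4' : (m : ℤ) + 1 ≤ n := by exact_mod_cast h4
  have h0' : (1 : ℤ) ≤ m := by exact_mod_cast h0
  have h5 : ((k : ℤ) - 4) * m ≤ 2 * n - 5 := by
    by_contra hlt
    rw [not_le] at hlt
    have h6 : 2 * (n : ℤ) - 4 ≤ (k - 4) * m := by linarith
    have h7 := mul_le_mul_of_nonneg_right h6 (show (0 : ℤ) ≤ n by linarith)
    unfold f at h1
    nlinarith
  unfold f at h1 ⊢
  nlinarith

/-- the recursion for the number of closed vertices -/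
theorem rec1 (k : ℕ) (hk : 7 ≤ k) (n : ℕ) (hn : 2 ≤ n) :
    (n : ℤ) + 1 ≤ (k - 4) * (q k n + 1) + 6 - q k (q k n + 1) := by
  have hk' : (7 : ℤ) ≤ k := by exact_mod_cast hk
  set p := q k n with hp
  have h1 : f k ((p : ℤ) + 1) n < 0 := q_neg k hk n (by omega)
  have h2 : 0 ≤ f k (q k (p + 1)) ((p : ℤ) + 1) := by
    have := q_nonneg k hk (p + 1) (by omega) (q k (p + 1)) le_rfl
    push_cast at this; exact this
  have h3 : f k ((q k (p + 1) : ℤ) + 1) ((p : ℤ) + 1) < 0 := by
    have := q_neg k hk (p + 1) (by omega)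
    push_cast at this; exact this
  set S : ℤ := (k - 4) * (p + 1) + 6 - q k (p + 1) with hS
  have h4 : 0 ≤ f k ((p : ℤ) + 1) S := by
    rw [hS, f_reflect, f_comm]; exact h2
  have h5 : f k ((p : ℤ) + 1) (S - 1) < 0 := by
    have : S - 1 = ((k : ℤ) - 4) * (p + 1) + 6 - (q k (p + 1) + 1) := by rw [hS]; ring
    rw [this, f_reflect, f_comm]; exact h3
  by_contra hlt
  rw [not_le] at hlt
  have h6 := f_mono k ((p : ℤ) + 1) (S - 1) n (by rw [sub_add_cancel]; linarith) (by linarith)
  rw [sub_add_cancel] at h6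
  linarith

theorem rec2 (k : ℕ) (hk : 7 ≤ k) (n : ℕ) (hn : 2 ≤ n)
    (h : (n : ℤ) + 1 = (k - 4) * (q k n + 1) + 6 - q k (q k n + 1)) :
    q k (n + 1) = q k n + 1 := by
  have hk' : (7 : ℤ) ≤ k := by exact_mod_cast hk
  set p := q k n with hp
  have h2 : 0 ≤ f k (q k (p + 1)) ((p : ℤ) + 1) := by
    have := q_nonneg k hk (p + 1) (by omega) (q k (p + 1)) le_rfl
    push_cast at this; exact this
  have h3 : f k ((q k (p + 1) : ℤ) + 1) ((p : ℤ) + 1) < 0 := by
    have := q_neg k hk (p + 1) (by omega)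
    push_cast at this; exact this
  set S : ℤ := (k - 4) * (p + 1) + 6 - q k (p + 1) with hS
  have h4 : 0 ≤ f k ((p : ℤ) + 1) S := by
    rw [hS, f_reflect, f_comm]; exact h2
  have h5 : f k ((p : ℤ) + 1) (S - 1) < 0 := by
    have : S - 1 = ((k : ℤ) - 4) * (p + 1) + 6 - (q k (p + 1) + 1) := by rw [hS]; ring
    rw [this, f_reflect, f_comm]; exact h3
  apply q_eq k hk (n + 1) (by omega)
  · push_cast
    rw [h]
    have hSpos : 0 ≤ S := by rw [← h]; positivity
    have hp0 : (0 : ℤ) ≤ p := by positivity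
    unfold f at h4 h5 ⊢
    nlinarith [mul_nonneg (sub_nonneg.2 hk') hSpos, mul_nonneg (sub_nonneg.2 hk') hp0]
  · intro m hm
    push_cast
    rcases Nat.lt_or_ge m (p + 1) with h6 | h6
    · exact keep k hk n hn m (by omega)
    · obtain rfl : m = p + 1 := by omega
      rw [h]; push_cast; exact h4

theorem rec3 (k : ℕ) (hk : 7 ≤ k) (n : ℕ) (hn : 2 ≤ n)
    (h : (n : ℤ) + 1 ≠ (k - 4) * (q k n + 1) + 6 - q k (q k n + 1)) :
    q k (n + 1) = q k n := by
  have hk' : (7 : ℤ) ≤ k := by exact_mod_cast hk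
  have hle := rec1 k hk n hn
  set p := q k n with hp
  have h1 : f k ((p : ℤ) + 1) n < 0 := q_neg k hk n (by omega)
  have h3 : f k ((q k (p + 1) : ℤ) + 1) ((p : ℤ) + 1) < 0 := by
    have := q_neg k hk (p + 1) (by omega)
    push_cast at this; exact this
  set S : ℤ := (k - 4) * (p + 1) + 6 - q k (p + 1) with hS
  have h5 : f k ((p : ℤ) + 1) (S - 1) < 0 := by
    have : S - 1 = ((k : ℤ) - 4) * (p + 1) + 6 - (q k (p + 1) + 1) := by rw [hS]; ring
    rw [this, f_reflect, f_comm]; exact h3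
  apply q_eq k hk (n + 1) (by omega)
  · push_cast
    by_contra hlt
    rw [not_lt] at hlt
    have h6 := f_mono k ((p : ℤ) + 1) n (S - 1) (by linarith) (by omega)
    linarith
  · intro m hm
    push_cast
    exact keep k hk n hn m hm

/-! ### Degrees in the spiral -/

theorem deg_insert_new (E : Finset (ℕ × ℕ)) (a m v : ℕ) (h : (a, m) ∉ E) :
    deg (insert (a, m) E) v = deg E v + if a = v ∨ m = v then 1 else 0 := by
  unfold deg
  rw [Finset.filter_insert]
  split_ifs with h1
  · rw [Finset.card_insert_of_notMem (fun hc => h (Finset.mem_filter.1 hc).1)]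
  · rfl

/-- Everything we know about the spiral with `n` vertices. -/
structure Inv (k n : ℕ) (E : Finset (ℕ × ℕ)) : Prop where
  lt : ∀ e ∈ E, e.1 < e.2 ∧ e.2 < n
  full : ∀ v < q k n, deg E v = k
  piv : (deg E (q k n) : ℤ) = n + q k (q k n + 1) - (k - 4) * q k n - 2
  mid : ∀ v, q k n < v → v + 1 < n → (deg E v : ℤ) = 3 + q k (v + 1) - q k v
  last : (deg E (n - 1) : ℤ) = 2 + q k n - q k (n - 1)
  gap : q k n + 1 < n
  card : (E.card : ℤ) = 2 * n - 3 + q k n

theorem pivot_eq (k : ℕ) (E : Finset (ℕ × ℕ)) (p : ℕ) (h1 : ∀ v < p, deg E v = k)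
    (h2 : deg E p < k) : pivot k E = p := by
  unfold pivot
  have h0 : p ∈ {v | deg E v < k} := h2
  apply le_antisymm (Nat.sInf_le h0)
  by_contra hlt
  rw [not_le] at hlt
  have h3 : deg E (sInf {v | deg E v < k}) < k := Nat.sInf_mem ⟨p, h0⟩
  have h4 := h1 _ hlt
  omega

theorem deg_ge (E : Finset (ℕ × ℕ)) (n : ℕ) (h : ∀ e ∈ E, e.1 < e.2 ∧ e.2 < n) (v : ℕ)
    (hv : n ≤ v) : deg E v = 0 := by
  unfold deg
  rw [Finset.card_eq_zero, Finset.filter_eq_empty_iff]
  intro e he
  have := h e he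
  omega

theorem inv_two (k : ℕ) (hk : 7 ≤ k) : Inv k 2 (spiral k 2) := by
  have e0 : spiral k 1 = ∅ := rfl
  have e1 : pivot k (∅ : Finset (ℕ × ℕ)) = 0 :=
    pivot_eq k ∅ 0 (by omega) (by simp [deg]; omega)
  have e2 : spiral k 2 = {(0, 1)} := by
    show attach k 1 (spiral k 1) = _
    rw [e0]
    unfold attach
    rw [e1]
    have e3 : pivot k (insert (0, 1) (insert (1 - 1, 1) ∅) : Finset (ℕ × ℕ)) = 0 := by
      apply pivot_eq
      · omega
      · have : (insert (0, 1) (insert (1 - 1, 1) ∅) : Finset (ℕ × ℕ)) = {(0, 1)} := by decide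
        rw [this]
        have : deg ({(0, 1)} : Finset (ℕ × ℕ)) 0 = 1 := by decide
        omega
    rw [e3]
    decide
  have q2 := q_two k hk
  have q1 := q_one k hk
  rw [e2]
  constructor
  · simp
  · rw [q2]; omega
  · rw [q2]
    have : deg ({(0, 1)} : Finset (ℕ × ℕ)) 0 = 1 := by decide
    rw [this]; rw [zero_add, q1]; push_cast; ring
  · intro v h1 h2; omega
  · have : deg ({(0, 1)} : Finset (ℕ × ℕ)) (2 - 1) = 1 := by decide
    rw [this, q2]
    norm_num [q1]
  · rw [q2]; norm_num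
  · rw [q2]; simp

theorem inv_step (k : ℕ) (hk : 7 ≤ k) (n : ℕ) (hn : 2 ≤ n) (E : Finset (ℕ × ℕ))
    (h : Inv k n E) : Inv k (n + 1) (attach k n E) := by
  have hk' : (7 : ℤ) ≤ k := by exact_mod_cast hk
  set p := q k n with hp
  have hle := rec1 k hk n hn
  rw [← hp] at hle
  have hgap : p + 1 < n := h.gap
  have hpiv := h.piv
  rw [← hp] at hpiv
  have hfull := h.full
  rw [← hp] at hfull
  -- the first pivot
  have hdp : deg E p < k := by
    have : (deg E p : ℤ) < k := by rw [hpiv]; linarith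
    exact_mod_cast this
  have e1 : pivot k E = p := pivot_eq k E p hfull hdp
  -- new edges
  have hnm : ∀ a, (a, n) ∉ E := fun a ha => by
    have := (h.lt _ ha).2
    simp at this
  have hnm2 : (p, n) ∉ insert (n - 1, n) E := by
    rw [Finset.mem_insert, not_or]
    refine ⟨?_, hnm p⟩
    rw [Prod.mk.injEq]
    omega
  set E₁ := insert (p, n) (insert (n - 1, n) E) with hE₁
  have hd1 : ∀ v, deg E₁ v = deg E v + (if n - 1 = v ∨ n = v then 1 else 0) +
      (if p = v ∨ n = v then 1 else 0) := by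
    intro v
    rw [hE₁, deg_insert_new _ _ _ _ hnm2, deg_insert_new _ _ _ _ (hnm (n - 1))]
  have hc1 : E₁.card = E.card + 2 := by
    rw [hE₁, Finset.card_insert_of_notMem hnm2, Finset.card_insert_of_notMem (hnm _)]
  have hlt1 : ∀ e ∈ E₁, e.1 < e.2 ∧ e.2 < n + 1 := by
    intro e he
    rw [hE₁, Finset.mem_insert, Finset.mem_insert] at he
    rcases he with rfl | rfl | he
    · simp; omega
    · simp; omega
    · have := h.lt e he; omega
  have hatt : attach k n E = insert (pivot k E₁, n) E₁ := by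
    unfold attach
    rw [e1]
  have hdn : deg E n = 0 := deg_ge E n h.lt n le_rfl
  have hlast := h.last
  rw [← hp] at hlast
  have hcard := h.card
  rw [← hp] at hcard
  have hmid := h.mid
  rw [← hp] at hmid
  have hq4 : ∀ m, 2 ≤ m → q k (m + 1) ≤ q k m + 1 := by
    intro m hm
    by_cases hc : (m : ℤ) + 1 = (k - 4) * (q k m + 1) + 6 - q k (q k m + 1)
    · rw [rec2 k hk m hm hc]
    · rw [rec3 k hk m hm hc]; omega
  by_cases hc : (n : ℤ) + 1 = (k - 4) * (p + 1) + 6 - q k (p + 1)
  · -- the pivot is closed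
    have hq : q k (n + 1) = p + 1 := rec2 k hk n hn hc
    -- p + 1 < n - 1
    have hqp : (q k (p + 1) : ℤ) ≤ p + 1 := by
      rcases Nat.eq_zero_or_pos p with h0 | h0
      · rw [h0, zero_add, q_one k hk]; simp
      · have := q_lt k hk (p + 1) (by omega)
        exact_mod_cast this.le
    have hgap2 : p + 3 < n := by
      have : (p : ℤ) + 3 < n := by nlinarith
      exact_mod_cast this
    have hdp1 : deg E₁ p = k := by
      rw [hd1, if_neg (by omega), if_pos (by omega)]
      have : (deg E p : ℤ) + 1 = k := by rw [hpiv]; linarith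
      omega
    have hm1 := hmid (p + 1) (by omega) (by omega)
    have hqq : q k (p + 1 + 1) ≤ q k (p + 1) + 1 := by
      rcases Nat.eq_zero_or_pos p with h0 | h0
      · rw [h0]; simp only [zero_add]
        have e2 : q k (1 + 1) = 0 := q_two k hk
        omega
      · exact hq4 (p + 1) (by omega)
    have hdp2 : deg E₁ (p + 1) < k := by
      rw [hd1, if_neg (by omega), if_neg (by omega)]
      omega
    have e2 : pivot k E₁ = p + 1 := by
      apply pivot_eq k E₁ (p + 1) _ hdp2
      intro v hv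
      rcases Nat.lt_or_ge v p with h1 | h1
      · rw [hd1, if_neg (by omega), if_neg (by omega)]
        exact hfull v h1
      · obtain rfl : v = p := by omega
        exact hdp1
    have hnm3 : (p + 1, n) ∉ E₁ := by
      rw [hE₁, Finset.mem_insert, Finset.mem_insert, not_or, not_or]
      refine ⟨?_, ?_, hnm _⟩ <;> rw [Prod.mk.injEq] <;> omega
    rw [hatt, e2]
    have hd2 : ∀ v, deg (insert (p + 1, n) E₁) v = deg E v +
        (if n - 1 = v ∨ n = v then 1 else 0) + (if p = v ∨ n = v then 1 else 0) +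
        (if p + 1 = v ∨ n = v then 1 else 0) := by
      intro v
      rw [deg_insert_new _ _ _ _ hnm3, hd1]
    constructor
    · intro e he
      rw [Finset.mem_insert] at he
      rcases he with rfl | he
      · simp; omega
      · exact hlt1 e he
    · intro v hv
      rw [hq] at hv
      rw [hd2, if_neg (show ¬ (n - 1 = v ∨ n = v) by omega),
        if_neg (show ¬ (p + 1 = v ∨ n = v) by omega)]
      rcases Nat.lt_or_ge v p with h1 | h1
      · rw [if_neg (by omega)]
        exact hfull v h1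
      · obtain rfl : v = p := by omega
        rw [if_pos (by omega)]
        have : (deg E p : ℤ) + 1 = k := by rw [hpiv]; linarith
        omega
    · rw [hq, hd2, if_neg (by omega), if_neg (by omega), if_pos (by omega)]
      push_cast
      rw [hm1]
      linarith
    · intro v h1 h2
      rw [hq] at h1
      rw [hd2, if_neg (show ¬ (p = v ∨ n = v) by omega),
        if_neg (show ¬ (p + 1 = v ∨ n = v) by omega)]
      rcases Nat.lt_or_ge (v + 1) n with h3 | h3
      · rw [if_neg (by omega)]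
        push_cast
        rw [hmid v (by omega) h3]
        ring
      · obtain rfl : v = n - 1 := by omega
        rw [if_pos (by omega)]
        push_cast
        rw [hlast, show n - 1 + 1 = n by omega, ← hp]
        ring
    · rw [hd2, show n + 1 - 1 = n by omega, if_pos (by omega), if_pos (by omega),
        if_pos (by omega), hdn, hq, ← hp]
      push_cast; ring
    · rw [hq]; omega
    · rw [Finset.card_insert_of_notMem hnm3, hc1, hq]
      push_cast
      rw [hcard]
      ring
  · -- the pivot is not closed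
    have hq : q k (n + 1) = p := rec3 k hk n hn hc
    have hlt' : (n : ℤ) + 1 < (k - 4) * (p + 1) + 6 - q k (p + 1) := lt_of_le_of_ne hle hc
    have hdp1 : deg E₁ p < k := by
      rw [hd1, if_pos (show p = p ∨ n = p by omega)]
      have h5 : (if n - 1 = p ∨ n = p then 1 else 0) = 0 := if_neg (by omega)
      rw [h5]
      have : (deg E p : ℤ) + 1 < k := by rw [hpiv]; linarith
      omega
    have e2 : pivot k E₁ = p := by
      apply pivot_eq k E₁ p _ hdp1
      intro v hv
      rw [hd1, if_neg (by omega), if_neg (by omega)]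
      exact hfull v hv
    have e3 : insert (p, n) E₁ = E₁ := by
      rw [hE₁, Finset.insert_eq_self]
      exact Finset.mem_insert_self _ _
    rw [hatt, e2, e3]
    constructor
    · exact hlt1
    · intro v hv
      rw [hq] at hv
      rw [hd1, if_neg (by omega), if_neg (by omega)]
      exact hfull v hv
    · rw [hq, hd1, if_neg (by omega), if_pos (by omega)]
      push_cast
      rw [hpiv]
      ring
    · intro v h1 h2
      rw [hq] at h1
      rw [hd1, if_neg (show ¬ (p = v ∨ n = v) by omega)]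
      rcases Nat.lt_or_ge (v + 1) n with h3 | h3
      · rw [if_neg (by omega)]
        push_cast
        rw [hmid v (by omega) h3]
        ring
      · obtain rfl : v = n - 1 := by omega
        rw [if_pos (by omega)]
        push_cast
        rw [hlast, show n - 1 + 1 = n by omega, ← hp]
        ring
    · rw [hd1, show n + 1 - 1 = n by omega, if_pos (by omega), if_pos (by omega), hdn, hq, ← hp]
      push_cast; ring
    · rw [hq]; omega
    · rw [hc1, hq]
      push_cast
      rw [hcard]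
      ring

theorem inv (k : ℕ) (hk : 7 ≤ k) (n : ℕ) : Inv k (n + 2) (spiral k (n + 2)) := by
  induction n with
  | zero => exact inv_two k hk
  | succ n ih => exact inv_step k hk (n + 2) (by omega) _ ih

/-! ### The closed form -/

theorem U_eq (k : ℕ) (hk : 7 ≤ k) (n : ℕ) :
    U (2 * Real.pi / k) n = (k * n - √((((k : ℝ) - 4) * n + 6) ^ 2 -
      4 * ((n : ℝ) ^ 2 - 6 * n + k + 6))) / 2 := by
  have hk0 : (k : ℝ) ≠ 0 := by positivity
  have hpi := Real.pi_ne_zero
  have e : Real.pi / (2 * Real.pi / k) = k / 2 := by field_simp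
  have e' : 2 * Real.pi / (2 * Real.pi / k) = k := by field_simp
  unfold U
  rw [e', e]
  have e2 : ((k : ℝ) / 2 - 1) * (k / 2 - 3) * (n : ℝ) ^ 2 + 6 * (k / 2 - 1) * n - k + 3 =
      ((((k : ℝ) - 4) * n + 6) ^ 2 - 4 * ((n : ℝ) ^ 2 - 6 * n + k + 6)) / 2 ^ 2 := by ring
  rw [e2, Real.sqrt_div' _ (by norm_num), Real.sqrt_sq (by norm_num)]
  ring

theorem floor_U (k : ℕ) (hk : 7 ≤ k) (n : ℕ) (hn : 1 ≤ n) :
    ⌊U (2 * Real.pi / k) n⌋ = 2 * n - 3 + q k n := by
  have h1 := q_nonneg k hk n hn (q k n) le_rfl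
  have h2 := q_neg k hk n hn
  set p := q k n with hp
  have hk' : (7 : ℝ) ≤ k := by exact_mod_cast hk
  have hn' : (1 : ℝ) ≤ n := by exact_mod_cast hn
  set a : ℝ := ((k : ℝ) - 4) * n + 6 with ha
  set b : ℝ := (n : ℝ) ^ 2 - 6 * n + k + 6 with hb
  have h1' : 0 ≤ (p : ℝ) ^ 2 - a * p + b := by
    have : (0 : ℝ) ≤ ((f k p n : ℤ) : ℝ) := by exact_mod_cast h1
    unfold f at this
    push_cast at this
    rw [ha, hb]; linarith
  have h2' : ((p : ℝ) + 1) ^ 2 - a * (p + 1) + b < 0 := by
    have : ((f k ((p : ℤ) + 1) n : ℤ) : ℝ) < 0 := by exact_mod_cast h2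
    unfold f at this
    push_cast at this
    rw [ha, hb]; linarith
  have hdisc : 0 < a ^ 2 - 4 * b := by nlinarith [sq_nonneg (2 * ((p : ℝ) + 1) - a)]
  set s := √(a ^ 2 - 4 * b) with hs
  have hs0 : 0 < s := Real.sqrt_pos.2 hdisc
  have hs2 : s ^ 2 = a ^ 2 - 4 * b := Real.sq_sqrt hdisc.le
  have hU : U (2 * Real.pi / k) n = 2 * n - 3 + (a - s) / 2 := by
    rw [U_eq k hk n, ← ha, ← hb, ← hs, ha]; ring
  -- `p + 1` lies between the roots
  have h3 : |2 * ((p : ℝ) + 1) - a| < s := by
    apply abs_lt_of_sq_lt_sq _ hs0.le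
    rw [hs2]; nlinarith
  rw [abs_lt] at h3
  -- `p` lies below the lower root
  have h4 : 2 * (p : ℝ) ≤ a - s := by
    by_contra hlt
    rw [not_le] at hlt
    have h5 : 2 * (p : ℝ) - a < s := by linarith
    have h6 : -s < 2 * (p : ℝ) - a := by linarith
    have h7 : (2 * (p : ℝ) - a) ^ 2 < s ^ 2 := by
      apply sq_lt_sq'
      · exact h6
      · exact h5
    rw [hs2] at h7
    nlinarith
  rw [hU, Int.floor_eq_iff]
  push_cast
  constructor
  · linarith
  · linarith

theorem q_tendsto (k : ℕ) (hk : 7 ≤ k) (v : ℕ) : ∃ N : ℕ, ∀ n ≥ N, v < q k n := by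
  have hk' : (7 : ℤ) ≤ k := by exact_mod_cast hk
  refine ⟨k * v + k + 7, fun n hn => ?_⟩
  by_contra hlt
  rw [not_lt] at hlt
  have h2 := q_neg k hk n (by omega)
  have h3 : (q k n : ℤ) ≤ v := by exact_mod_cast hlt
  have h4 : (k : ℤ) * v + k + 7 ≤ n := by exact_mod_cast hn
  have h5 : (k : ℤ) * q k n ≤ k * v := mul_le_mul_of_nonneg_left h3 (by positivity)
  have h6 : (0 : ℤ) ≤ q k n := by positivity
  have h7 : ((k : ℤ) * q k n + k + 7) * n ≤ n * n :=
    mul_le_mul_of_nonneg_right (by linarith) (by positivity)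
  have h8 : (0 : ℤ) ≤ n := by positivity
  unfold f at h2
  nlinarith [mul_nonneg h6 h8]

/-- **Theorem.** For all `k ≥ 7` and `n ≥ 1` the spiral with `n` vertices in the order-`k`
triangular tiling has exactly `⌊U n⌋` edges, where `U` is the upper bound of the problem at
`α = 2 π / k`; every vertex finally has exactly `k` neighbours. -/
theorem result (k : ℕ) (hk : 7 ≤ k) :
    (∀ n : ℕ, 1 ≤ n → ((spiral k n).card : ℤ) = ⌊U (2 * Real.pi / k) n⌋) ∧
    (∀ n : ℕ, ∀ e ∈ spiral k n, e.1 < e.2 ∧ e.2 < n) ∧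
    (∀ v : ℕ, ∃ N : ℕ, ∀ n ≥ N, deg (spiral k n) v = k) := by
  refine ⟨?_, ?_, ?_⟩
  · intro n hn
    rw [floor_U k hk n hn]
    rcases Nat.lt_or_ge n 2 with h | h
    · obtain rfl : n = 1 := by omega
      rw [q_one k hk]
      simp [spiral]
    · obtain ⟨m, rfl⟩ : ∃ m, n = m + 2 := ⟨n - 2, by omega⟩
      exact (inv k hk m).card
  · intro n
    rcases Nat.lt_or_ge n 2 with h | h
    · have : spiral k n = ∅ := by
        interval_cases n <;> rfl
      rw [this]; simp
    · obtain ⟨m, rfl⟩ : ∃ m, n = m + 2 := ⟨n - 2, by omega⟩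
      exact (inv k hk m).lt
  · intro v
    obtain ⟨N, hN⟩ := q_tendsto k hk v
    refine ⟨N + 2, fun n hn => ?_⟩
    obtain ⟨m, rfl⟩ : ∃ m, n = m + 2 := ⟨n - 2, by omega⟩
    exact (inv k hk m).full v (hN _ (by omega))

end Pool.Agent.Results.MP_780082_co.Spiral
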